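import Pool.Agent.Lib.MP_25f38e_lc.MainUnb

/-!
# The measurable symmetric Lovász Local Lemma with null defect

Problem MP_25f38e_lc, Q1.  For every Borel `k`-instance `𝔅` over a standard Borel space `X` which is
correct for the symmetric Lovász Local Lemma (`e · p(𝔅) · (d(𝔅)+1) < 1`) and every Borel
probability measure `μ` on `X` there is a Borel map `f : X → k` with `μ (Def (f, 𝔅)) = 0`.
-/

set_option linter.unusedSectionVars false

noncomputable section

open scoped Classical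
open MeasureTheory Finset Function

namespace Pool.Agent.Results.MP_25f38e_lc.NullDefect

universe u

/-! ### Definitions -/

/-- The Borel structure on the set of finite subsets of a Borel space `α`: a set `𝒮` of finite
subsets is Borel iff for every `n` the set of all `(x₁, …, xₙ)` with `{x₁, …, xₙ} ∈ 𝒮` is
Borel in `αⁿ`. -/
@[reducible]
def finsetBorel (α : Type u) [MeasurableSpace α] : MeasurableSpace (Finset α) :=
  ⨅ n : ℕ, MeasurableSpace.map (fun x : Fin n → α => Finset.univ.image x) MeasurableSpace.pi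

section defs

variable {X : Type u} {k : ℕ}

/-- `φ` is (the graph of) a finite partial map from `X` to `k` -/
def IsPMap (φ : Finset (X × Fin k)) : Prop := ∀ x a b, (x, a) ∈ φ → (x, b) ∈ φ → a = b

/-- the domain of a finite partial map -/
def dm (φ : Finset (X × Fin k)) : Finset X := φ.image Prod.fst

/-- bad `k`-event: a nonempty (finite) set of finite partial maps with the same domain -/
def IsBadEvent (B : Finset (Finset (X × Fin k))) : Prop :=
  B.Nonempty ∧ (∀ φ ∈ B, IsPMap φ) ∧ ∀ φ ∈ B, ∀ ψ ∈ B, dm φ = dm ψ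

/-- the (common) domain of a bad event -/
def Dm (B : Finset (Finset (X × Fin k))) : Finset X := B.biUnion dm

/-- the probability of a bad event -/
def prob (B : Finset (Finset (X × Fin k))) : ℝ := (B.card : ℝ) / (k : ℝ) ^ (Dm B).card

/-- the neighbourhood of `B` in `𝔅` -/
def nbhd (𝔅 : Set (Finset (Finset (X × Fin k)))) (B : Finset (Finset (X × Fin k))) :
    Set (Finset (Finset (X × Fin k))) :=
  {B' | B' ∈ 𝔅 ∧ B' ≠ B ∧ (Dm B' ∩ Dm B).Nonempty}

/-- `p(𝔅)` -/
def supProb (𝔅 : Set (Finset (Finset (X × Fin k)))) : ℝ := sSup (prob '' 𝔅)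

/-- `d(𝔅)` -/
def supDeg (𝔅 : Set (Finset (Finset (X × Fin k)))) : ℕ∞ := ⨆ B ∈ 𝔅, (nbhd 𝔅 B).encard

/-- `𝔅` is correct for the symmetric Lovász Local Lemma: `d(𝔅) < ∞` and
`e · p(𝔅) · (d(𝔅) + 1) < 1` -/
def CorrectSLLL (𝔅 : Set (Finset (Finset (X × Fin k)))) : Prop :=
  supDeg 𝔅 ≠ ⊤ ∧ Real.exp 1 * supProb 𝔅 * (((supDeg 𝔅).toNat : ℝ) + 1) < 1

/-- the defect `Def (f, 𝔅)` -/
def Defect (f : X → Fin k) (𝔅 : Set (Finset (Finset (X × Fin k)))) : Set X :=
  {x | ∃ B ∈ 𝔅, ∃ φ ∈ B, x ∈ dm φ ∧ ∀ y a, (y, a) ∈ φ → f y = a}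

/-- `𝔅` is a Borel subset of the space of finite sets of finite subsets of `X × k` -/
def IsBorel [MeasurableSpace X] (𝔅 : Set (Finset (Finset (X × Fin k)))) : Prop :=
  @MeasurableSet _ (@finsetBorel (Finset (X × Fin k)) (finsetBorel (X × Fin k))) 𝔅

end defs

/-! ### Measurability of explicit maps into finite sets -/

theorem measurable_image {α β : Type u} [mα : MeasurableSpace α] {mβ : MeasurableSpace β}
    {κ : Type} (S : Finset κ) (f : κ → β → α) (hf : ∀ i ∈ S, Measurable (f i)) :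
    @Measurable β (Finset α) mβ (finsetBorel α) (fun b => S.image (fun i => f i b)) := by
  have h1 : ∀ n : ℕ, @Measurable (Fin n → α) (Finset α) MeasurableSpace.pi (finsetBorel α)
      (fun x => Finset.univ.image x) := by
    intro n s hs
    have := (MeasurableSpace.measurableSet_iInf.1 hs) n
    exact this
  let e := S.equivFin
  have h2 : (fun b => S.image (fun i => f i b)) =
      (fun x : Fin S.card → α => Finset.univ.image x) ∘
        (fun b (j : Fin S.card) => f (e.symm j : κ) b) := by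
    funext b
    ext a
    simp only [mem_image, Function.comp, mem_univ, true_and]
    constructor
    · rintro ⟨i, hi, rfl⟩
      exact ⟨e ⟨i, hi⟩, by simp⟩
    · rintro ⟨j, rfl⟩
      exact ⟨e.symm j, (e.symm j).2, rfl⟩
  rw [h2]
  refine Measurable.comp (h1 _) ?_
  exact measurable_pi_lambda _ fun j => hf _ (e.symm j).2

theorem measurable_image' {α β : Type u} [mα : MeasurableSpace α] {mβ : MeasurableSpace β}
    [inst : DecidableEq α] {κ : Type} (S : Finset κ) (f : κ → β → α)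
    (hf : ∀ i ∈ S, Measurable (f i)) :
    @Measurable β (Finset α) mβ (finsetBorel α) (fun b => S.image (fun i => f i b)) := by
  have h : inst = fun a b => Classical.propDecidable (a = b) := Subsingleton.elim _ _
  subst h
  exact measurable_image S f hf

/-! ### Coding of the events -/

open Pool.Agent.MLLL Pool.Agent.MLLL.Inst

section coding

variable {X : Type u} [MeasurableSpace X] [StandardBorelSpace X] {k : ℕ} (x₀ : X) (a₀ : Fin k)

/-- the `j`-th element of `F` -/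
abbrev nth (j : ℕ) (F : Finset X) : X := measfinNth x₀ j F

/-- the partial map with domain `F` and list of values `l` -/
def gr (F : Finset X) (l : List (Fin k)) : Finset (X × Fin k) :=
  (Finset.range F.card).image (fun j => (nth x₀ j F, l.getD j a₀))

/-- the list of values of `g` on `F` -/
def vals (F : Finset X) (g : X → Fin k) : List (Fin k) :=
  (List.range F.card).map (fun j => g (nth x₀ j F))

/-- the set of partial maps coded by `(F, S)` -/
def ev (q : Finset X × Finset (List (Fin k))) : Finset (Finset (X × Fin k)) :=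
  q.2.image (gr x₀ a₀ q.1)

variable {x₀ a₀}

theorem vals_length (F : Finset X) (g : X → Fin k) : (vals x₀ F g).length = F.card := by
  simp [vals]

theorem mem_gr {F : Finset X} {l : List (Fin k)} {y : X} {a : Fin k} :
    (y, a) ∈ gr x₀ a₀ F l ↔ ∃ j, j < F.card ∧ nth x₀ j F = y ∧ l.getD j a₀ = a := by
  simp only [gr, mem_image, mem_range, Prod.mk.injEq]

theorem dm_gr (F : Finset X) (l : List (Fin k)) : dm (gr x₀ a₀ F l) = F := by
  ext y
  rw [dm, mem_image, measfin_mem_iff_nth x₀ (F := F)]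
  constructor
  · rintro ⟨⟨y', a⟩, h, rfl⟩
    obtain ⟨j, hj, h1, _⟩ := mem_gr.1 h
    exact ⟨j, hj, h1⟩
  · rintro ⟨j, hj, h1⟩
    exact ⟨(y, l.getD j a₀), mem_gr.2 ⟨j, hj, h1, rfl⟩, rfl⟩

theorem vals_getD {F : Finset X} (g : X → Fin k) {j : ℕ} (hj : j < F.card) :
    (vals x₀ F g).getD j a₀ = g (nth x₀ j F) := by
  simp [vals, List.getD, hj]

theorem gr_vals {F : Finset X} {g : X → Fin k} {φ : Finset (X × Fin k)} (hF : dm φ = F)
    (hg : ∀ y a, (y, a) ∈ φ → g y = a) : gr x₀ a₀ F (vals x₀ F g) = φ := by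
  ext ⟨y, a⟩
  rw [mem_gr]
  constructor
  · rintro ⟨j, hj, h1, h2⟩
    rw [vals_getD g hj, h1] at h2
    have hy : y ∈ dm φ := by
      rw [hF, measfin_mem_iff_nth x₀]
      exact ⟨j, hj, h1⟩
    obtain ⟨⟨y', b⟩, hb, rfl⟩ := mem_image.1 hy
    have := hg y' b hb
    rw [← h2, this]
    exact hb
  · intro h
    have hy : y ∈ F := by rw [← hF]; exact mem_image.2 ⟨_, h, rfl⟩
    obtain ⟨j, hj, h1⟩ := (measfin_mem_iff_nth x₀).1 hy
    refine ⟨j, hj, h1, ?_⟩
    rw [vals_getD g hj]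
    show g (measfinNth x₀ j F) = a
    rw [h1]
    exact hg y a h

/-- the graph determines the list -/
theorem gr_injOn {F : Finset X} {l l' : List (Fin k)} (hl : l.length = F.card)
    (hl' : l'.length = F.card) (h : gr x₀ a₀ F l = gr x₀ a₀ F l') : l = l' := by
  refine List.ext_getElem (hl.trans hl'.symm) fun j hj hj' => ?_
  have hjF : j < F.card := hl ▸ hj
  have h1 : (nth x₀ j F, l.getD j a₀) ∈ gr x₀ a₀ F l := mem_gr.2 ⟨j, hjF, rfl, rfl⟩
  rw [h] at h1
  obtain ⟨i, hi, h2, h3⟩ := mem_gr.1 h1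
  have : i = j := measfin_nth_inj x₀ hi hjF h2
  subst this
  have e1 : l.getD i a₀ = l[i] := by simp [List.getD, hj]
  have e2 : l'.getD i a₀ = l'[i] := by simp [List.getD, hj']
  rw [← e1, ← e2]
  exact h3.symm

theorem Dm_ev {q : Finset X × Finset (List (Fin k))} (hq : q.2.Nonempty) :
    Dm (ev x₀ a₀ q) = q.1 := by
  ext y
  simp only [Dm, ev, mem_biUnion, mem_image]
  constructor
  · rintro ⟨_, ⟨l, _, rfl⟩, hy⟩
    rwa [dm_gr] at hy
  · intro hy
    obtain ⟨l, hl⟩ := hq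
    exact ⟨_, ⟨l, hl, rfl⟩, by rwa [dm_gr]⟩

theorem card_ev {q : Finset X × Finset (List (Fin k))} (hq : ∀ l ∈ q.2, l.length = q.1.card) :
    (ev x₀ a₀ q).card = q.2.card :=
  card_image_of_injOn fun l hl l' hl' h => gr_injOn (hq l hl) (hq l' hl') h

theorem ev_inj {q q' : Finset X × Finset (List (Fin k))} (hq : q.2.Nonempty)
    (hq' : q'.2.Nonempty) (hl : ∀ l ∈ q.2, l.length = q.1.card)
    (hl' : ∀ l ∈ q'.2, l.length = q'.1.card) (h : ev x₀ a₀ q = ev x₀ a₀ q') : q = q' := by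
  have h1 : q.1 = q'.1 := by rw [← Dm_ev (x₀ := x₀) (a₀ := a₀) hq, h, Dm_ev hq']
  obtain ⟨F, S⟩ := q
  obtain ⟨F', S'⟩ := q'
  simp only at h1 hl hl'
  subst h1
  have key : ∀ T T' : Finset (List (Fin k)), (∀ l ∈ T, l.length = F.card) →
      (∀ l ∈ T', l.length = F.card) → ev x₀ a₀ (F, T) = ev x₀ a₀ (F, T') → T ⊆ T' := by
    intro T T' hT hT' he l hlT
    have : gr x₀ a₀ F l ∈ ev x₀ a₀ (F, T) := mem_image.2 ⟨l, hlT, rfl⟩
    rw [he] at this
    obtain ⟨l', hl'T, hg⟩ := mem_image.1 this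
    rwa [gr_injOn (hT l hlT) (hT' l' hl'T) hg.symm]
  have : S = S' := Subset.antisymm (key S S' hl hl' h) (key S' S hl' hl h.symm)
  rw [this]

/-- every bad event is coded -/
theorem exists_code {B : Finset (Finset (X × Fin k))} (hB : IsBadEvent B) :
    ∃ S : Finset (List (Fin k)), S.Nonempty ∧ (∀ l ∈ S, l.length = (Dm B).card) ∧
      ev x₀ a₀ (Dm B, S) = B ∧
      ∀ g : X → Fin k, (∃ φ ∈ B, ∀ y a, (y, a) ∈ φ → g y = a) → vals x₀ (Dm B) g ∈ S := by
  obtain ⟨⟨φ₀, hφ₀⟩, hpm, hdm⟩ := hB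
  have hD : ∀ φ ∈ B, dm φ = Dm B := by
    intro φ hφ
    ext y
    simp only [Dm, mem_biUnion]
    constructor
    · intro hy; exact ⟨φ, hφ, hy⟩
    · rintro ⟨ψ, hψ, hy⟩; rwa [hdm φ hφ ψ hψ]
  let val : Finset (X × Fin k) → X → Fin k := fun φ y =>
    if h : ∃ a, (y, a) ∈ φ then Classical.choose h else a₀
  have hval : ∀ φ ∈ B, ∀ y a, (y, a) ∈ φ → val φ y = a := by
    intro φ hφ y a ha
    have h : ∃ a, (y, a) ∈ φ := ⟨a, ha⟩
    have : val φ y = Classical.choose h := dif_pos h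
    rw [this]
    exact hpm φ hφ y _ _ (Classical.choose_spec h) ha
  refine ⟨B.image (fun φ => vals x₀ (Dm B) (val φ)), ⟨_, mem_image.2 ⟨φ₀, hφ₀, rfl⟩⟩, ?_, ?_, ?_⟩
  · intro l hl
    obtain ⟨φ, _, rfl⟩ := mem_image.1 hl
    exact vals_length _ _
  · ext φ
    simp only [ev, mem_image]
    constructor
    · rintro ⟨_, ⟨ψ, hψ, rfl⟩, rfl⟩
      rwa [gr_vals (hD ψ hψ) (hval ψ hψ)]
    · intro hφ
      exact ⟨_, ⟨φ, hφ, rfl⟩, gr_vals (hD φ hφ) (hval φ hφ)⟩
  · rintro g ⟨φ, hφ, hg⟩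
    refine mem_image.2 ⟨φ, hφ, ?_⟩
    refine gr_injOn (x₀ := x₀) (a₀ := a₀) (vals_length _ _) (vals_length _ _) ?_
    rw [gr_vals (hD φ hφ) (hval φ hφ), gr_vals (hD φ hφ) hg]

end coding

/-! ### The index space -/

/-- finite sets of lists, with the discrete Borel structure -/
def LS (k : ℕ) : Type := Finset (List (Fin k))

instance (k : ℕ) : MeasurableSpace (LS k) := ⊤

instance (k : ℕ) : DiscreteMeasurableSpace (LS k) := ⟨fun _ => trivial⟩

instance (k : ℕ) : Countable (LS k) := inferInstanceAs (Countable (Finset (List (Fin k))))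

/-- the underlying finite set -/
def LS.s {k : ℕ} (S : LS k) : Finset (List (Fin k)) := S

section index

variable {X : Type u} [MeasurableSpace X] [StandardBorelSpace X] {k : ℕ} (x₀ : X) (a₀ : Fin k)
  (𝔅 : Set (Finset (Finset (X × Fin k))))

/-- valid codes -/
def Valid : Set (Finset X × LS k) :=
  {q | q.2.s.Nonempty ∧ (∀ l ∈ q.2.s, l.length = q.1.card) ∧ ev x₀ a₀ (q.1, q.2.s) ∈ 𝔅}

/-- the index type of the events -/
def Idx : Type u := {q : Finset X × LS k // q ∈ Valid x₀ a₀ 𝔅}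

instance : DecidableEq (Idx x₀ a₀ 𝔅) := Classical.decEq _

instance : MeasurableSpace (Idx x₀ a₀ 𝔅) :=
  inferInstanceAs (MeasurableSpace {q : Finset X × LS k // q ∈ Valid x₀ a₀ 𝔅})

variable {x₀ a₀ 𝔅}

theorem measurableSet_valid (h : IsBorel 𝔅) : MeasurableSet (Valid x₀ a₀ 𝔅) := by
  have hn : ∀ (S : Finset (List (Fin k))) (n : ℕ),
      @Measurable (Finset X) (Finset (Finset (X × Fin k))) _
        (@finsetBorel (Finset (X × Fin k)) (finsetBorel (X × Fin k)))
        (fun F => S.image (fun l => (Finset.range n).image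
          (fun j => (nth x₀ j F, l.getD j a₀)))) := by
    intro S n
    let _ : MeasurableSpace (Finset (X × Fin k)) := finsetBorel (X × Fin k)
    refine measurable_image' S (fun l F => (Finset.range n).image
          (fun j => (nth x₀ j F, l.getD j a₀))) fun l _ => ?_
    refine measurable_image' (Finset.range n) (fun j F => (nth x₀ j F, l.getD j a₀)) fun j _ => ?_
    exact (measfin_nth_meas x₀ j).prodMk measurable_const
  have hS : ∀ (S : Finset (List (Fin k))) (n : ℕ), MeasurableSet {F : Finset X |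
      S.image (fun l => (Finset.range n).image (fun j => (nth x₀ j F, l.getD j a₀))) ∈ 𝔅} :=
    fun S n => hn S n h
  have heq : Valid x₀ a₀ 𝔅 = ⋃ (S : LS k) (n : ℕ),
      ({q : Finset X × LS k | q.2 = S} ∩ {q | q.1.card = n}) ∩
      {q | (S.s.Nonempty ∧ ∀ l ∈ S.s, l.length = n) ∧ S.s.image (fun l =>
        (Finset.range n).image (fun j => (nth x₀ j q.1, l.getD j a₀))) ∈ 𝔅} := by
    ext q
    simp only [Set.mem_iUnion, Set.mem_inter_iff, Set.mem_ofPred_eq, Valid]
    constructor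
    · rintro ⟨h1, h2, h3⟩
      exact ⟨q.2, q.1.card, ⟨rfl, rfl⟩, ⟨h1, h2⟩, h3⟩
    · rintro ⟨S, n, ⟨h1, h2⟩, ⟨h3, h4⟩, h5⟩
      subst h1 h2
      exact ⟨h3, h4, h5⟩
  rw [heq]
  refine MeasurableSet.iUnion fun S => MeasurableSet.iUnion fun n => MeasurableSet.inter
    (MeasurableSet.inter ?_ ?_) ?_
  · exact measurable_snd (measurableSet_singleton S)
  · exact (measfin_card_meas.comp measurable_fst) (measurableSet_singleton n)
  · by_cases hc : S.s.Nonempty ∧ ∀ l ∈ S.s, l.length = n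
    · refine (iff_of_eq (congrArg MeasurableSet (Set.ext fun q => ?_))).1
        (measurable_fst (hS S.s n))
      exact (and_iff_right hc).symm
    · refine (iff_of_eq (congrArg MeasurableSet (Set.ext fun q => ?_))).1 MeasurableSet.empty
      exact ⟨fun h => h.elim, fun h => hc h.1⟩

theorem stdBorel_idx (h : IsBorel 𝔅) : StandardBorelSpace (Idx x₀ a₀ 𝔅) :=
  (measurableSet_valid h).standardBorel

/-- the event with code `q` -/
abbrev evq (q : Idx x₀ a₀ 𝔅) : Finset (Finset (X × Fin k)) := ev x₀ a₀ (q.1.1, q.1.2.s)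

theorem evq_mem (q : Idx x₀ a₀ 𝔅) : evq q ∈ 𝔅 := q.2.2.2

theorem evq_injective : Function.Injective (evq : Idx x₀ a₀ 𝔅 → _) := by
  intro q q' h
  have := ev_inj (x₀ := x₀) (a₀ := a₀) (q := (q.1.1, q.1.2.s)) (q' := (q'.1.1, q'.1.2.s))
    q.2.1 q'.2.1 q.2.2.1 q'.2.2.1 h
  exact Subtype.ext this

theorem Dm_evq (q : Idx x₀ a₀ 𝔅) : Dm (evq q) = q.1.1 := Dm_ev q.2.1

theorem nbhd_le (h : supDeg 𝔅 ≠ ⊤) {B : Finset (Finset (X × Fin k))} (hB : B ∈ 𝔅) :
    (nbhd 𝔅 B).encard ≤ ((supDeg 𝔅).toNat : ℕ∞) := by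
  rw [ENat.natCast_toNat h]
  exact le_iSup₂ (f := fun (B : Finset (Finset (X × Fin k))) (_ : B ∈ 𝔅) =>
    (nbhd 𝔅 B).encard) B hB

theorem evq_mem_insert {q q' : Idx x₀ a₀ 𝔅} {v : X} (hv : v ∈ q.1.1) (hv' : v ∈ q'.1.1) :
    evq q' ∈ insert (evq q) (nbhd 𝔅 (evq q)) := by
  by_cases h : evq q' = evq q
  · exact Or.inl h
  · refine Or.inr ⟨evq_mem q', h, v, ?_⟩
    rw [Dm_evq, Dm_evq]
    exact mem_inter.2 ⟨hv', hv⟩

theorem insert_le (h : supDeg 𝔅 ≠ ⊤) (q : Idx x₀ a₀ 𝔅) :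
    (insert (evq q) (nbhd 𝔅 (evq q))).encard ≤ (((supDeg 𝔅).toNat + 1 : ℕ) : ℕ∞) := by
  refine (Set.encard_insert_le _ _).trans ?_
  push_cast
  gcongr
  exact nbhd_le h (evq_mem q)

theorem insert_finite (h : supDeg 𝔅 ≠ ⊤) (q : Idx x₀ a₀ 𝔅) :
    (insert (evq q) (nbhd 𝔅 (evq q))).Finite :=
  Set.finite_of_encard_le_coe (insert_le h q)

theorem vals_congr {F : Finset X} {g g' : X → Fin k} (h : ∀ v ∈ F, g v = g' v) :
    vals x₀ F g = vals x₀ F g' := by
  refine List.map_congr_left fun j hj => h _ ?_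
  rw [measfin_mem_iff_nth x₀]
  exact ⟨j, by simpa using hj, rfl⟩

variable (x₀ a₀) in
/-- the coded instance -/
def theInst (h : supDeg 𝔅 ≠ ⊤) : Inst X (Idx x₀ a₀ 𝔅) (Fin k) where
  dom q := q.1.1
  fin v := by
    rcases Set.eq_empty_or_nonempty {q : Idx x₀ a₀ 𝔅 | v ∈ q.1.1} with he | ⟨q, hq⟩
    · rw [he]; exact Set.finite_empty
    · refine Set.Finite.of_finite_image (f := evq) ((insert_finite h q).subset ?_)
        (evq_injective.injOn)
      rintro _ ⟨q', hq', rfl⟩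
      exact evq_mem_insert hq hq'
  bad q g := vals x₀ q.1.1 g ∈ q.1.2.s ∧ q.1.1.Nonempty
  bad_congr := by
    intro q g g' hg hb
    rw [vals_congr hg] at hb
    exact hb
  ne_of_bad := fun q g hb => hb.2

theorem theInst_nbr (h : supDeg 𝔅 ≠ ⊤) (q : Idx x₀ a₀ 𝔅) :
    ((theInst x₀ a₀ h).nbr q).card ≤ (supDeg 𝔅).toNat + 1 := by
  have h1 : (((theInst x₀ a₀ h).nbr q).image evq : Set (Finset (Finset (X × Fin k)))) ⊆
      insert (evq q) (nbhd 𝔅 (evq q)) := by
    intro B hB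
    obtain ⟨q', hq', rfl⟩ := mem_image.1 (Finset.mem_coe.1 hB)
    obtain ⟨v, hv, hv'⟩ := (theInst x₀ a₀ h).mem_incS.1 hq'
    exact evq_mem_insert hv hv'
  have h2 := (Set.encard_le_encard h1).trans (insert_le h q)
  rw [Set.encard_coe_eq_coe_finsetCard, card_image_of_injective _ evq_injective] at h2
  exact_mod_cast h2

theorem theInst_inc (h : supDeg 𝔅 ≠ ⊤) (v : X) :
    ((theInst x₀ a₀ h).inc v).card ≤ (supDeg 𝔅).toNat + 1 := by
  rcases ((theInst x₀ a₀ h).inc v).eq_empty_or_nonempty with he | ⟨q, hq⟩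
  · rw [he]; simp
  · refine le_trans (card_le_card fun q' hq' => ?_) (theInst_nbr h q)
    exact (theInst x₀ a₀ h).mem_incS.2 ⟨v, (theInst x₀ a₀ h).mem_inc.1 hq,
      (theInst x₀ a₀ h).mem_inc.1 hq'⟩

theorem theInst_meas (h : supDeg 𝔅 ≠ ⊤) (hb : IsBorel 𝔅) :
    haveI := stdBorel_idx (x₀ := x₀) (a₀ := a₀) hb
    (theInst x₀ a₀ h).Meas' := by
  have := stdBorel_idx (x₀ := x₀) (a₀ := a₀) hb
  have hsub : Measurable (fun q : Idx x₀ a₀ 𝔅 => q.1) := measurable_subtype_coe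
  have hdom : Measurable (fun q : Idx x₀ a₀ 𝔅 => q.1.1) := measurable_fst.comp hsub
  refine ⟨hdom, ?_, ?_⟩
  · refine measurable_of_rel (theInst_inc h) ?_
    have : {p : X × Idx x₀ a₀ 𝔅 | p.2 ∈ (theInst x₀ a₀ h).inc p.1} =
        (fun p : X × Idx x₀ a₀ 𝔅 => (p.1, p.2.1.1)) ⁻¹' {q : X × Finset X | q.1 ∈ q.2} := by
      ext p
      exact (theInst x₀ a₀ h).mem_inc
    rw [this]
    exact (measurable_fst.prodMk (hdom.comp measurable_snd)) measurableSet_mem
  · intro Z _ g hg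
    have hF : Measurable (fun p : Z × Idx x₀ a₀ 𝔅 => p.2.1.1) := hdom.comp measurable_snd
    have hS : Measurable (fun p : Z × Idx x₀ a₀ 𝔅 => p.2.1.2) :=
      measurable_snd.comp (hsub.comp measurable_snd)
    have hv : ∀ l : List (Fin k), MeasurableSet
        {p : Z × Idx x₀ a₀ 𝔅 | vals x₀ p.2.1.1 (g p.1) = l} := by
      intro l
      have heq : {p : Z × Idx x₀ a₀ 𝔅 | vals x₀ p.2.1.1 (g p.1) = l} =
          {p | p.2.1.1.card = l.length} ∩
            ⋂ j ∈ Finset.range l.length, {p | g p.1 (nth x₀ j p.2.1.1) = l.getD j a₀} := by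
        ext p
        simp only [Set.mem_inter_iff, Set.mem_iInter, Set.mem_ofPred_eq]
        constructor
        · rintro rfl
          refine ⟨(vals_length _ _).symm, fun j hj => ?_⟩
          rw [vals_length, mem_range] at hj
          rw [vals_getD _ hj]
        · rintro ⟨h1, h2⟩
          refine List.ext_getElem ((vals_length _ _).trans h1) fun j hj hj' => ?_
          have h3 := h2 j (mem_range.2 hj')
          have hj2 : j < p.2.1.1.card := by rwa [vals_length] at hj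
          have h4 := vals_getD (a₀ := a₀) (x₀ := x₀) (g p.1) hj2
          have e1 : (vals x₀ p.2.1.1 (g p.1)).getD j a₀ = (vals x₀ p.2.1.1 (g p.1))[j] := by
            simp [List.getD, hj]
          have e2 : l.getD j a₀ = l[j] := by simp [List.getD, hj']
          rw [← e1, h4, h3, e2]
      rw [heq]
      refine MeasurableSet.inter ((measfin_card_meas.comp hF) (measurableSet_singleton _)) ?_
      refine Finset.measurableSet_biInter _ fun j _ => ?_
      exact (hg.comp (measurable_fst.prodMk ((measfin_nth_meas x₀ j).comp hF)))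
        (measurableSet_singleton _)
    have heq : {p : Z × Idx x₀ a₀ 𝔅 | (theInst x₀ a₀ h).bad p.2 (g p.1)} =
        (⋃ S : LS k, ({p | p.2.1.2 = S} ∩
          ⋃ l ∈ S.s, {p | vals x₀ p.2.1.1 (g p.1) = l})) ∩ {p | p.2.1.1.card ≠ 0} := by
      ext p
      simp only [Set.mem_inter_iff, Set.mem_iUnion, Set.mem_ofPred_eq]
      constructor
      · rintro ⟨h1, h2⟩
        exact ⟨⟨p.2.1.2, rfl, _, h1, rfl⟩, (card_pos.2 h2).ne'⟩
      · rintro ⟨⟨S, h1, l, h2, h3⟩, h4⟩
        refine ⟨?_, card_pos.1 (Nat.pos_of_ne_zero h4)⟩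
        rw [h3, h1]
        exact h2
    rw [heq]
    refine MeasurableSet.inter (MeasurableSet.iUnion fun S => MeasurableSet.inter
      (hS (measurableSet_singleton S)) (Finset.measurableSet_biUnion _ fun l _ => hv l)) ?_
    exact (measfin_card_meas.comp hF) (measurableSet_singleton 0).compl

theorem card_le_pow {n : ℕ} {S : Finset (List (Fin k))} (a₀ : Fin k)
    (hS : ∀ l ∈ S, l.length = n) : S.card ≤ k ^ n := by
  have h1 : S.card ≤ (Finset.univ : Finset (Fin n → Fin k)).card := by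
    refine card_le_card_of_injOn (fun l j => l.getD j a₀) (fun _ _ => mem_coe.2 (mem_univ _)) ?_
    intro l hl l' hl' he
    refine List.ext_getElem ((hS l hl).trans (hS l' hl').symm) fun j hj hj' => ?_
    have hjn : j < n := (hS l hl) ▸ hj
    have := congrFun he ⟨j, hjn⟩
    simpa [List.getD, hj, hj'] using this
  simpa using h1

theorem prob_evq (q : Idx x₀ a₀ 𝔅) :
    prob (evq q) = (q.1.2.s.card : ℝ) / (k : ℝ) ^ q.1.1.card := by
  unfold prob
  rw [Dm_evq, card_ev (q := (q.1.1, q.1.2.s)) q.2.2.1]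

theorem prob_le_one {B : Finset (Finset (X × Fin k))} (x₀ : X) (a₀ : Fin k) (hk : 0 < k)
    (hB : IsBadEvent B) : prob B ≤ 1 := by
  obtain ⟨S, h1, h2, h3, _⟩ := exists_code (x₀ := x₀) (a₀ := a₀) hB
  have hc : B.card = S.card := by
    conv_lhs => rw [← h3]
    exact card_ev h2
  unfold prob
  rw [hc, div_le_one (by positivity)]
  exact_mod_cast card_le_pow a₀ h2

theorem theInst_p (h : supDeg 𝔅 ≠ ⊤) (q : Idx x₀ a₀ 𝔅) :
    haveI : Nonempty (Fin k) := ⟨a₀⟩
    (theInst x₀ a₀ h).p q ≤ prob (evq q) := by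
  have : Nonempty (Fin k) := ⟨a₀⟩
  rw [prob_evq]
  show avg q.1.1 (fun g => ind ((theInst x₀ a₀ h).bad q g)) _ ≤ _
  unfold avg
  rw [Fintype.card_fin]
  gcongr
  have hinj : ∀ g : X → Fin k, (∑ f : (q.1.1 → Fin k),
      ind ((theInst x₀ a₀ h).bad q (ov q.1.1 f g))) ≤ (q.1.2.s.card : ℝ) := by
    intro g
    unfold ind
    rw [sum_boole]
    norm_cast
    refine card_le_card_of_injOn (fun f => vals x₀ q.1.1 (ov q.1.1 f g)) ?_ ?_
    · intro f hf
      exact mem_coe.2 (mem_filter.1 (mem_coe.1 hf)).2.1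
    · intro f _ f' _ he
      funext ⟨x, hx⟩
      obtain ⟨j, hj, hjx⟩ := (measfin_mem_iff_nth x₀).1 hx
      have h1 := vals_getD (x₀ := x₀) (a₀ := a₀) (ov q.1.1 f g) hj
      have h2 := vals_getD (x₀ := x₀) (a₀ := a₀) (ov q.1.1 f' g) hj
      have he' : vals x₀ q.1.1 (ov q.1.1 f g) = vals x₀ q.1.1 (ov q.1.1 f' g) := he
      rw [he', h2] at h1
      have h3 : ov q.1.1 f' g x = ov q.1.1 f g x := by
        rw [← hjx]; exact h1
      simpa [ov, hx] using h3.symm
  exact hinj _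

theorem defect_subset (h : supDeg 𝔅 ≠ ⊤) (hB : ∀ B ∈ 𝔅, IsBadEvent B) (f : X → Fin k) :
    Defect f 𝔅 ⊆ (theInst x₀ a₀ h).Def f := by
  rintro x ⟨B, hBm, φ, hφ, hx, hf⟩
  obtain ⟨S, h1, h2, h3, h4⟩ := exists_code (x₀ := x₀) (a₀ := a₀) (hB B hBm)
  have hxD : x ∈ Dm B := mem_biUnion.2 ⟨φ, hφ, hx⟩
  let q : Idx x₀ a₀ 𝔅 := ⟨(Dm B, S), h1, h2, by
    show ev x₀ a₀ (Dm B, S) ∈ 𝔅
    rw [h3]; exact hBm⟩
  exact ⟨q, (theInst x₀ a₀ h).mem_inc.2 hxD, h4 f ⟨φ, hφ, hf⟩, x, hxD⟩

end index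

/-! ### The theorem -/

/-- **Measurable symmetric Lovász Local Lemma with null defect.**  Let `k ≥ 1`, let `𝔅` be a Borel
`k`-instance over a standard Borel space `X` which is correct for the symmetric Lovász Local Lemma
and let `μ` be a Borel probability measure on `X`.  Then there is a Borel map `f : X → k` with
`μ (Def (f, 𝔅)) = 0`. -/
theorem result {k : ℕ} (hk : 0 < k) {X : Type u} [MeasurableSpace X] [StandardBorelSpace X]
    (𝔅 : Set (Finset (Finset (X × Fin k)))) (hbad : ∀ B ∈ 𝔅, IsBadEvent B)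
    (hBorel : IsBorel 𝔅) (hcorrect : CorrectSLLL 𝔅) (μ : Measure X) [IsProbabilityMeasure μ] :
    ∃ f : X → Fin k, Measurable f ∧ μ (Defect f 𝔅) = 0 := by
  have a₀ : Fin k := ⟨0, hk⟩
  rcases isEmpty_or_nonempty X with hX | ⟨⟨x₀⟩⟩
  · refine ⟨fun _ => a₀, measurable_const, ?_⟩
    rw [Set.eq_empty_of_isEmpty (Defect (fun _ => a₀) 𝔅)]
    exact measure_empty
  · obtain ⟨htop, hlt⟩ := hcorrect
    have := stdBorel_idx (x₀ := x₀) (a₀ := a₀) hBorel
    have : Nonempty (Fin k) := ⟨a₀⟩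
    have hbdd : BddAbove (prob '' 𝔅) := by
      refine ⟨1, ?_⟩
      rintro _ ⟨B, hB, rfl⟩
      exact prob_le_one x₀ a₀ hk (hbad B hB)
    obtain ⟨f, hf, hf0⟩ := main_slll (theInst x₀ a₀ htop) (theInst_meas htop hBorel)
      (supDeg 𝔅).toNat (supProb 𝔅) hlt
      (fun q => (theInst_p htop q).trans (le_csSup hbdd ⟨evq q, evq_mem q, rfl⟩))
      (theInst_nbr htop) μ
    exact ⟨f, hf, measure_mono_null (defect_subset htop hbad f) hf0⟩

end Pool.Agent.Results.MP_25f38e_lc.NullDefect
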